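import Pool.Agent.H58.TIE.RAM
import Pool.Agent.H20.MT.Rho

/-!
# TIE, module FD: the exponential sum of `Fh`
-/

set_option autoImplicit false

namespace TIE.R58
open Finset TIE MTA

theorem ee_mul_conj (t : ℝ) : ee t * (starRingEnd ℂ) (ee t) = 1 := by
  rw [Complex.mul_conj, Complex.normSq_eq_norm_sq, ee_norm]
  simp

/-- the support of `fw` -/
theorem fw_supp {q a b : ℕ} {x : ℝ} (hx : 1 ≤ x) {n : ℕ} (h : fw q a b x n ≠ 0) :
    x * Real.exp (-2) ≤ (n : ℝ) - 1 ∧ n ≤ ⌊9 * x⌋₊ := by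
  have hx0 : 0 < x := by linarith
  have h1 : n.Prime := by
    by_contra h1
    apply h
    simp [fw, h1]
  have h2 : rho (Real.log (((n : ℝ) - 1) / x)) ≠ 0 := by
    intro h2
    apply h
    simp [fw, h2]
  have h3 : |Real.log (((n : ℝ) - 1) / x)| < 2 := by
    by_contra h3
    exact h2 (rho_zero (not_lt.1 h3))
  have h4 : (2 : ℝ) ≤ n := by exact_mod_cast h1.two_le
  have h5 : 0 < ((n : ℝ) - 1) / x := div_pos (by linarith) hx0
  rw [abs_lt] at h3
  constructor
  · have h6 : Real.exp (-2) < ((n : ℝ) - 1) / x := (Real.lt_log_iff_exp_lt h5).1 h3.1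
    rw [lt_div_iff₀ hx0] at h6
    linarith
  · have h6 : ((n : ℝ) - 1) / x < Real.exp 2 := (Real.log_lt_iff_lt_exp h5).1 h3.2
    rw [div_lt_iff₀ hx0] at h6
    have h7 : Real.exp 2 < 8 := by
      have h8 : Real.exp 1 < 2.7182818286 := Real.exp_one_lt_d9
      have h9 : Real.exp 2 = Real.exp 1 * Real.exp 1 := by
        rw [← Real.exp_add]
        norm_num
      have h10 := Real.exp_pos 1
      rw [h9]
      nlinarith
    apply Nat.le_floor
    nlinarith

theorem fd_aux (q a b : ℕ) (x : ℝ) (t : ℝ) (hx : 1 ≤ x) (h j : ℕ) (hj : j ∈ Icc 1 h)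
    (hh : (h : ℝ) ≤ x * Real.exp (-2)) :
    ∑ y ∈ Icc 1 ⌊9 * x⌋₊, (fw q a b x (y + j) : ℂ) * ee (y * t) =
      ∑ n ∈ Icc 1 ⌊9 * x⌋₊, (starRingEnd ℂ) (ee (j * t)) * ((fw q a b x n : ℂ) * ee (n * t)) := by
  obtain ⟨hj1, hj2⟩ := mem_Icc.1 hj
  have hj3 : (j : ℝ) ≤ h := by exact_mod_cast hj2
  refine sum_bij_ne_zero (fun y _ _ => y + j) ?_ ?_ ?_ ?_
  · intro y hy hne
    have h1 : fw q a b x (y + j) ≠ 0 := by
      intro h1
      apply hne
      rw [h1]
      simp
    have h2 := (fw_supp hx h1).2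
    have h3 := (mem_Icc.1 hy).1
    exact mem_Icc.2 ⟨by omega, h2⟩
  · intro y _ _ y' _ _ hyy
    exact Nat.add_right_cancel hyy
  · intro n hn hne
    have h1 : fw q a b x n ≠ 0 := by
      intro h1
      apply hne
      rw [h1]
      simp
    obtain ⟨h2, h3⟩ := fw_supp hx h1
    have h4 : (j : ℝ) + 1 ≤ n := by linarith
    have h5 : j + 1 ≤ n := by exact_mod_cast h4
    have h6 : n - j + j = n := by omega
    refine ⟨n - j, mem_Icc.2 ⟨by omega, by omega⟩, ?_, h6⟩
    rw [h6]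
    intro h7
    rcases mul_eq_zero.1 h7 with h8 | h8
    · exact h1 (by exact_mod_cast h8)
    · have h9 := ee_norm (((n - j : ℕ) : ℝ) * t)
      rw [h8, norm_zero] at h9
      exact zero_ne_one h9
  · intro y _ _
    have h1 : ee (((y + j : ℕ) : ℝ) * t) = ee (y * t) * ee (j * t) := by
      rw [← ee_add]
      congr 1
      push_cast
      ring
    rw [h1]
    have h2 := ee_mul_conj (j * t)
    linear_combination (-((fw q a b x (y + j) : ℂ) * ee (y * t))) * h2

end TIE.R58

namespace TIE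
open Finset MTA R58

theorem FD : S_FD := by
  intro A
  have h1 := (Real.isLittleO_pow_log_id_atTop (n := A)).def (c := Real.exp (-2)) (Real.exp_pos _)
  obtain ⟨x1, hx1⟩ := Filter.eventually_atTop.1 h1
  refine ⟨max x1 1, fun x hx q a b h t hh => ?_⟩
  have hx0 : 1 ≤ x := (le_max_right _ _).trans hx
  have h2 := hx1 x ((le_max_left _ _).trans hx)
  simp only [id, Real.norm_eq_abs] at h2
  have h3 : (h : ℝ) ≤ x * Real.exp (-2) := by
    have h4 : |x| = x := abs_of_nonneg (by linarith)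
    rw [h4] at h2
    calc (h : ℝ) ≤ Real.log x ^ A := hh
      _ ≤ |Real.log x ^ A| := le_abs_self _
      _ ≤ Real.exp (-2) * x := h2
      _ = x * Real.exp (-2) := mul_comm _ _
  have h4 : ∀ y : ℕ, (Fh q a b x h y : ℂ) * ee (y * t) =
      ∑ j ∈ Icc 1 h, (fw q a b x (y + j) : ℂ) * ee (y * t) := by
    intro y
    have h5 : Fh q a b x h y = ∑ j ∈ Icc 1 h, fw q a b x (y + j) := by
      unfold Fh
      refine (sum_nbij' (i := fun j => y + j) (j := fun n => n - y) ?_ ?_ ?_ ?_ ?_).symm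
      · intro j hj
        have := mem_Icc.1 hj
        exact mem_Ioc.2 ⟨by omega, by omega⟩
      · intro n hn
        have := mem_Ioc.1 hn
        exact mem_Icc.2 ⟨by omega, by omega⟩
      · intro j _
        simp
      · intro n hn
        have := mem_Ioc.1 hn
        omega
      · intro j _
        rfl
    rw [h5]
    push_cast
    rw [sum_mul]
  simp only [h4]
  rw [sum_comm]
  rw [sum_congr rfl fun j hj => fd_aux q a b x t hx0 h j hj h3]
  unfold Dh fhat
  rw [map_sum, sum_mul_sum]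

end TIE
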