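import Pool.Agent.H70.TIE.Stmts

/-!
# TIE, module RAM: Ramanujan sums
-/

set_option autoImplicit false

namespace TIE.R58
open Finset TIE

theorem ee_add (s t : ℝ) : ee (s + t) = ee s * ee t := by
  unfold ee
  rw [← Complex.exp_add]
  congr 1
  push_cast
  ring

theorem ee_int (n : ℤ) : ee n = 1 := by
  unfold ee
  have h := Complex.exp_int_mul_two_pi_mul_I n
  rw [← h]
  congr 1
  push_cast
  ring

theorem ee_nat_mul (n : ℕ) (t : ℝ) : ee (n * t) = ee t ^ n := by
  unfold ee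
  rw [← Complex.exp_nat_mul]
  congr 1
  push_cast
  ring

theorem ee_norm (t : ℝ) : ‖ee t‖ = 1 := by
  unfold ee
  have h : (2 * Real.pi * Complex.I * (t : ℂ)) = ((2 * Real.pi * t : ℝ) : ℂ) * Complex.I := by
    push_cast
    ring
  rw [h]
  exact Complex.norm_exp_ofReal_mul_I _

theorem ee_eq_one (k : ℤ) (n : ℕ) (hn : 0 < n) (h : ee (k / n) = 1) : (n : ℤ) ∣ k := by
  unfold ee at h
  obtain ⟨m, hm⟩ := Complex.exp_eq_one_iff.1 h
  have h1 : (2 * Real.pi * Complex.I : ℂ) ≠ 0 := Complex.two_pi_I_ne_zero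
  have h2 : (((k : ℝ) / (n : ℝ) : ℝ) : ℂ) = m := by
    apply mul_left_cancel₀ h1
    rw [hm]
    ring
  have h3 : (k : ℝ) / n = m := by exact_mod_cast h2
  have h4 : (n : ℝ) ≠ 0 := by positivity
  rw [div_eq_iff h4] at h3
  have h5 : k = m * n := by exact_mod_cast h3
  exact ⟨m, by rw [h5]; ring⟩

theorem geo (k : ℤ) (n : ℕ) (hn : 0 < n) :
    ∑ s ∈ range n, ee (s * k / n) = if (n : ℤ) ∣ k then (n : ℂ) else 0 := by
  have h0 : (n : ℝ) ≠ 0 := by positivity
  have h1 : ∀ s ∈ range n, ee (s * k / n) = ee (k / n) ^ s := by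
    intro s _
    rw [← ee_nat_mul]
    congr 1
    ring
  rw [sum_congr rfl h1]
  have h2 : ee (k / n) ^ n = 1 := by
    rw [← ee_nat_mul, mul_div_cancel₀ _ h0]
    exact ee_int k
  split_ifs with h
  · obtain ⟨m, rfl⟩ := h
    have h3 : (((n : ℤ) * m : ℤ) : ℝ) / n = (m : ℝ) := by
      push_cast
      field_simp
    rw [h3, ee_int]
    simp
  · have h3 : ee (k / n) ≠ 1 := fun h' => h (ee_eq_one k n hn h')
    have h4 := geom_sum_eq h3 n
    rw [h4, h2, sub_self, zero_div]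

theorem full (k : ℤ) (n : ℕ) (hn : 0 < n) :
    ∑ d ∈ n.divisors, cr d k = ∑ s ∈ range n, ee (s * k / n) := by
  have hm : ∀ s ∈ range n, n / n.gcd s ∈ n.divisors := fun s _ =>
    Nat.mem_divisors.2 ⟨Nat.div_dvd_of_dvd (Nat.gcd_dvd_left n s), hn.ne'⟩
  rw [← sum_fiberwise_of_maps_to hm]
  refine sum_congr rfl fun d hd => ?_
  obtain ⟨g, hg⟩ := (Nat.mem_divisors.1 hd).1
  have hd0 : 0 < d := Nat.pos_of_mem_divisors hd
  have hg0 : 0 < g := by
    rcases Nat.eq_zero_or_pos g with h | h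
    · rw [h, mul_zero] at hg
      omega
    · exact h
  unfold cr
  refine sum_nbij' (i := fun s => g * s) (j := fun s => s / g) ?_ ?_ ?_ ?_ ?_
  · intro s hs
    obtain ⟨h1, h2⟩ := mem_filter.1 hs
    rw [mem_range] at h1
    rw [mem_filter, mem_range]
    have h3 : n.gcd (g * s) = g := by
      rw [hg, mul_comm d g, Nat.gcd_mul_left, Nat.gcd_comm, h2, mul_one]
    refine ⟨?_, ?_⟩
    · rw [hg, mul_comm d g]
      exact Nat.mul_lt_mul_of_pos_left h1 hg0
    · rw [h3, hg]
      exact Nat.mul_div_cancel _ hg0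
  · intro s hs
    obtain ⟨h1, h2⟩ := mem_filter.1 hs
    rw [mem_range] at h1
    have h3 : n.gcd s = g := by
      have h4 : n / n.gcd s * n.gcd s = n := Nat.div_mul_cancel (Nat.gcd_dvd_left n s)
      rw [h2] at h4
      exact Nat.eq_of_mul_eq_mul_left hd0 (h4.trans hg)
    have h4 : g ∣ s := h3 ▸ Nat.gcd_dvd_right n s
    obtain ⟨s', rfl⟩ := h4
    have h5 : g * s' / g = s' := Nat.mul_div_cancel_left _ hg0
    simp only [h5]
    rw [RR, mem_filter, mem_range]
    refine ⟨?_, ?_⟩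
    · rw [hg, mul_comm d g] at h1
      exact Nat.lt_of_mul_lt_mul_left h1
    · rw [hg, mul_comm d g, Nat.gcd_mul_left] at h3
      have h6 : d.gcd s' = 1 := by
        apply Nat.eq_of_mul_eq_mul_left hg0
        rw [h3, mul_one]
      rw [Nat.Coprime, Nat.gcd_comm]
      exact h6
  · intro s _
    exact Nat.mul_div_cancel_left _ hg0
  · intro s hs
    obtain ⟨h1, h2⟩ := mem_filter.1 hs
    have h3 : n.gcd s = g := by
      have h4 : n / n.gcd s * n.gcd s = n := Nat.div_mul_cancel (Nat.gcd_dvd_left n s)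
      rw [h2] at h4
      exact Nat.eq_of_mul_eq_mul_left hd0 (h4.trans hg)
    have h4 : g ∣ s := h3 ▸ Nat.gcd_dvd_right n s
    exact Nat.mul_div_cancel' h4
  · intro s _
    congr 1
    rw [hg]
    have h1 : (g : ℝ) ≠ 0 := by positivity
    have h2 : (d : ℝ) ≠ 0 := by positivity
    push_cast
    field_simp

end TIE.R58

namespace TIE
open Finset

theorem RAM : S_RAM := by
  intro r k hr
  have h := (ArithmeticFunction.sum_eq_iff_sum_mul_moebius_eq
    (f := fun n => cr n k) (g := fun n => if (n : ℤ) ∣ k then (n : ℂ) else 0)).1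
    (fun n hn => by rw [R58.full k n hn, R58.geo k n hn]) r hr
  rw [← h, Nat.sum_divisorsAntidiagonal'
    (f := fun a b => ((ArithmeticFunction.moebius a : ℤ) : ℂ) *
      (if (b : ℤ) ∣ k then (b : ℂ) else 0))]
  refine sum_congr rfl fun d _ => ?_
  split_ifs <;> simp

end TIE
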