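import Pool.Agent.H70.TIE.Stmts

/-!
# TIE, module RSUM: sums of Ramanujan sums
-/

set_option autoImplicit false

namespace TIE.R58
open Finset TIE

theorem count_dvd (r d : ℕ) (k : ℤ) (hd : 0 < d) (hdr : d ∣ r) :
    ((range r).filter (fun u : ℕ => (d : ℤ) ∣ (u : ℤ) + k)).card = r / d := by
  obtain ⟨v, hv⟩ : ∃ v : ℕ, (v : ℤ) = (-k) % d :=
    ⟨((-k) % d).toNat, Int.toNat_of_nonneg (Int.emod_nonneg _ (by positivity))⟩
  have h1 : ∀ u : ℕ, (d : ℤ) ∣ (u : ℤ) + k ↔ u ≡ v [MOD d] := by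
    intro u
    rw [← Int.natCast_modEq_iff, hv]
    constructor
    · intro h
      have h2 : (u : ℤ) ≡ -k [ZMOD d] := by
        apply Int.ModEq.symm
        rw [Int.modEq_iff_dvd]
        have h3 : (u : ℤ) - -k = u + k := by ring
        rw [h3]
        exact h
      exact h2.trans (Int.mod_modEq _ _).symm
    · intro h
      have h2 : (u : ℤ) ≡ -k [ZMOD d] := h.trans (Int.mod_modEq _ _)
      have h3 := (Int.modEq_iff_dvd.1 h2.symm)
      have h4 : (u : ℤ) - -k = u + k := by ring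
      rw [h4] at h3
      exact h3
  have h2 : (range r).filter (fun u : ℕ => (d : ℤ) ∣ (u : ℤ) + k) =
      (range r).filter (fun u : ℕ => u ≡ v [MOD d]) := filter_congr fun u _ => h1 u
  rw [h2, ← Nat.count_eq_card_filter_range, Nat.count_modEq_card r hd v,
    Nat.mod_eq_zero_of_dvd hdr]
  simp

end TIE.R58

namespace TIE
open Finset

theorem RSUM (h : S_RAM) : S_RSUM := by
  intro r k hr
  have h1 : ∀ m : ℤ, ‖cr r m‖ ≤ ∑ d ∈ r.divisors, if (d : ℤ) ∣ m then (d : ℝ) else 0 := by
    intro m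
    rw [h r m hr]
    refine (norm_sum_le _ _).trans (sum_le_sum fun d _ => ?_)
    split_ifs
    · rw [norm_mul, Complex.norm_natCast]
      have h2 : ‖((ArithmeticFunction.moebius (r / d) : ℤ) : ℂ)‖ ≤ 1 := by
        rw [Complex.norm_intCast]
        exact_mod_cast ArithmeticFunction.abs_moebius_le_one
      have h3 : (0 : ℝ) ≤ d := by positivity
      nlinarith
    · simp
  calc ∑ u ∈ range r, ‖cr r (u + k)‖
      ≤ ∑ u ∈ range r, ∑ d ∈ r.divisors, (if (d : ℤ) ∣ (u : ℤ) + k then (d : ℝ) else 0) :=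
        sum_le_sum fun u _ => h1 _
    _ = ∑ d ∈ r.divisors, ∑ u ∈ range r, (if (d : ℤ) ∣ (u : ℤ) + k then (d : ℝ) else 0) :=
        sum_comm
    _ = ∑ d ∈ r.divisors, (r : ℝ) := by
        refine sum_congr rfl fun d hd => ?_
        have hd0 : 0 < d := Nat.pos_of_mem_divisors hd
        have hdr : d ∣ r := Nat.dvd_of_mem_divisors hd
        rw [← sum_filter, sum_const, R58.count_dvd r d k hd0 hdr, nsmul_eq_mul]
        have h2 : r / d * d = r := Nat.div_mul_cancel hdr
        exact_mod_cast h2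
    _ = r * r.divisors.card := by
        rw [sum_const, nsmul_eq_mul]
        ring

end TIE
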